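import Mathlib
import Pool.Agent.H69R3.Defs
import Pool.Agent.V8H78.TychCube.Main

/-!
# Tychonoff cubes of weight `ω₁` inside non-metrizable t-extral spaces
-/

set_option autoImplicit false

open Set Topology unitInterval

universe u v

namespace Pool.Agent.Results.MP_a58584_gt.TychonoffCube

open Pool.Agent.H69R3

/-- Let the Tychonoff space `X` be t-extral, or compact and homeomorphic to a t-embedded subspace of
a Tychonoff cube. If `X` is not metrizable, then the Tychonoff cube `[0,1]^ω₁` embeds in `X`. -/
theorem result (X : Type u) [TopologicalSpace X] [T35Space X]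
    (hX : TExtral X ∨ (CompactSpace X ∧ ∃ (lam : Type u) (e : X → (lam → I)), IsEmbedding e ∧
      TEmbedded (range e))) (hm : ¬ TopologicalSpace.MetrizableSpace X)
    (J : Type v) (hJ : Cardinal.mk J = Cardinal.aleph 1) :
    ∃ h : (J → I) → X, IsEmbedding h := by
  rcases hX with h | ⟨hc, lam, e, he, φ, hφ, hφe⟩
  · obtain ⟨hc, κ, e, ψ, he, hψ, hψe⟩ := extral_cube h
    exact Pool.Agent.V8H78.TychCube.main_cube e he ψ hψ hψe hm J hJ
  · let H : X ≃ₜ range e := he.toHomeomorph
    let R : Cp X → Cp (range e) := fun f => ⟨fun y => f.1 (H.symm y), f.2.comp H.symm.continuous⟩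
    have hR : Continuous R := by
      refine Continuous.subtype_mk (continuous_pi fun y => ?_) _
      exact (continuous_apply (H.symm y)).comp continuous_subtype_val
    refine Pool.Agent.V8H78.TychCube.main_cube e he.continuous (fun f => φ (R f)) (hφ.comp hR) ?_
      hm J hJ
    intro f x
    have h1 := hφe (R f) ⟨e x, x, rfl⟩
    have h2 : H.symm ⟨e x, x, rfl⟩ = x := H.symm_apply_apply x
    rw [show (φ (R f)).1 (e x) = (φ (R f)).1 ((⟨e x, x, rfl⟩ : range e) : lam → I) from rfl, h1]
    show f.1 (H.symm ⟨e x, x, rfl⟩) = f.1 x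
    rw [h2]

end Pool.Agent.Results.MP_a58584_gt.TychonoffCube
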